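import Pool.Agent.Lib.MP_8bee83_an.Main

/-!
Sofic mean dimension of infinite groups acting on finite-dimensional compact metric spaces.
-/

set_option autoImplicit false

open Pool.Agent.Lib.MP_8bee83_an

namespace Pool.Agent.Results.MP_8bee83_an.NonPositive

/-- For every infinite group `G`, every sofic approximation sequence of `G` and every continuous
action of `G` on a compact metric space of finite covering dimension, the sofic mean dimension is
at most `0`. -/
theorem result {G : Type*} [Group G] [Infinite G] (S : SoficApprox G) {X : Type*}
    [MetricSpace X] [CompactSpace X] [MulAction G X] [ContinuousConstSMul G X]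
    (hX : covDim X < ⊤) : mdim S X ≤ 0 :=
  mdim_nonpos S hX

end Pool.Agent.Results.MP_8bee83_an.NonPositive
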